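import Pool.Agent.Y223.AD.Gen3

/-!
# Lifting a basis from the special fibre
-/

set_option autoImplicit false

open PowerSeries

namespace Pool.Agent.Y223.AD

variable {k A S : Type*} [Field k] [CommRing A] [Algebra k A] [CommRing S] [Algebra k⟦X⟧ S]

theorem q_algebraMap (q : S →+* A) (hX : q (algebraMap k⟦X⟧ S X) = 0)
    (hC : ∀ a : k, q (algebraMap k⟦X⟧ S (C a)) = algebraMap k A a) (f : k⟦X⟧) :
    q (algebraMap k⟦X⟧ S f) = algebraMap k A (constantCoeff f) := by
  obtain ⟨g, hg⟩ : X ∣ f - C (constantCoeff f) := by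
    rw [X_dvd_iff]; simp
  have : f = X * g + C (constantCoeff f) := by rw [← hg]; ring
  conv_lhs => rw [this]
  rw [map_add, map_add, map_mul, map_mul, hX, zero_mul, zero_add, hC]

theorem indep_lift [Module.Finite k⟦X⟧ S] [Module.Flat k⟦X⟧ S] (q : S →+* A)
    (hX : q (algebraMap k⟦X⟧ S X) = 0)
    (hC : ∀ a : k, q (algebraMap k⟦X⟧ S (C a)) = algebraMap k A a)
    {ι : Type*} [Fintype ι] (b : Module.Basis ι k A) (e : ι → S) (he : ∀ i, q (e i) = b i) :
    LinearIndependent k⟦X⟧ e := by
  have hfree : Module.Free k⟦X⟧ S := Module.free_of_flat_of_isLocalRing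
  have key : ∀ n : ℕ, ∀ c : ι → k⟦X⟧, ∑ i, c i • e i = 0 → ∀ i, X ^ n ∣ c i := by
    intro n
    induction n with
    | zero => intro c _ i; simp
    | succ n ih =>
      intro c hc
      have h0 : ∀ i, constantCoeff (c i) = 0 := by
        have h1 : q (∑ i, c i • e i) = 0 := by rw [hc, map_zero]
        rw [map_sum] at h1
        simp only [Algebra.smul_def, map_mul, q_algebraMap q hX hC, he] at h1
        simp only [← Algebra.smul_def] at h1
        exact fun i => Fintype.linearIndependent_iff.1 b.linearIndependent _ h1 i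
      have h2 : ∀ i, ∃ g, c i = X * g := fun i => X_dvd_iff.2 (h0 i)
      choose g hg using h2
      have h3 : (X : k⟦X⟧) • ∑ i, g i • e i = 0 := by
        rw [Finset.smul_sum, ← hc]
        exact Finset.sum_congr rfl fun i _ => by rw [hg i, mul_smul]
      have h4 := (smul_eq_zero.1 h3).resolve_left X_ne_zero
      intro i
      rw [hg i, pow_succ']
      exact mul_dvd_mul_left _ (ih g h4 i)
  rw [Fintype.linearIndependent_iff]
  intro c hc i
  ext n
  rw [map_zero]
  exact (X_pow_dvd_iff.1 (key (n + 1) c hc i)) n (Nat.lt_succ_self n)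

theorem span_lift [Module.Finite k⟦X⟧ S] (q : S →+* A)
    (hker : RingHom.ker q = Ideal.span {algebraMap k⟦X⟧ S X})
    (hC : ∀ a : k, q (algebraMap k⟦X⟧ S (C a)) = algebraMap k A a)
    {ι : Type*} [Fintype ι] (b : Module.Basis ι k A) (e : ι → S) (he : ∀ i, q (e i) = b i) :
    Submodule.span k⟦X⟧ (Set.range e) = ⊤ := by
  have hX : q (algebraMap k⟦X⟧ S X) = 0 := by
    rw [← RingHom.mem_ker, hker]; exact Ideal.mem_span_singleton_self _
  have h1 : (⊤ : Submodule k⟦X⟧ S) ≤ Submodule.span k⟦X⟧ (Set.range e) ⊔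
      (Ideal.span {(X : k⟦X⟧)}) • (⊤ : Submodule k⟦X⟧ S) := by
    intro s _
    have h2 : q (s - ∑ i, (C (b.repr (q s) i) : k⟦X⟧) • e i) = 0 := by
      rw [map_sub, map_sum]
      simp only [Algebra.smul_def, map_mul, hC, he]
      simp only [← Algebra.smul_def]
      rw [b.sum_repr, sub_self]
    rw [← RingHom.mem_ker, hker, Ideal.mem_span_singleton] at h2
    obtain ⟨t, ht⟩ := h2
    have h3 : s = ∑ i, (C (b.repr (q s) i) : k⟦X⟧) • e i + (X : k⟦X⟧) • t := by
      rw [Algebra.smul_def X t, ← ht]; ring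
    rw [h3]
    refine Submodule.add_mem_sup ?_ ?_
    · exact Submodule.sum_mem _ fun i _ => Submodule.smul_mem _ _ (Submodule.subset_span ⟨i, rfl⟩)
    · exact Submodule.smul_mem_smul (Ideal.mem_span_singleton_self _) trivial
  have h2 : Ideal.span {(X : k⟦X⟧)} ≤ (⊥ : Ideal k⟦X⟧).jacobson := by
    rw [IsLocalRing.jacobson_eq_maximalIdeal ⊥ bot_ne_top, Ideal.span_le]
    rintro _ rfl
    rw [SetLike.mem_coe, IsLocalRing.mem_maximalIdeal, mem_nonunits_iff, PowerSeries.isUnit_iff_constantCoeff]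
    simp
  have h3 := Submodule.le_of_le_smul_of_le_jacobson_bot (Module.Finite.fg_top) h2 h1
  exact top_le_iff.1 h3

theorem exists_lift_basis [Module.Finite k⟦X⟧ S] [Module.Flat k⟦X⟧ S] (q : S →+* A)
    (hq : Function.Surjective q)
    (hker : RingHom.ker q = Ideal.span {algebraMap k⟦X⟧ S X})
    (hC : ∀ a : k, q (algebraMap k⟦X⟧ S (C a)) = algebraMap k A a)
    {ι : Type*} [Fintype ι] (b : Module.Basis ι k A) :
    ∃ e : Module.Basis ι k⟦X⟧ S, ∀ i j l,
      constantCoeff (e.repr (e i * e j) l) = b.repr (b i * b j) l := by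
  have hX : q (algebraMap k⟦X⟧ S X) = 0 := by
    rw [← RingHom.mem_ker, hker]; exact Ideal.mem_span_singleton_self _
  choose v hv using fun i => hq (b i)
  let e : Module.Basis ι k⟦X⟧ S := Module.Basis.mk (indep_lift q hX hC b v hv)
    (span_lift q hker hC b v hv).ge
  have he : ∀ i, e i = v i := fun i => Module.Basis.mk_apply _ _ _
  refine ⟨e, fun i j l => ?_⟩
  have h1 : q (e i * e j) = b i * b j := by rw [map_mul, he, he, hv, hv]
  have h2 : q (e i * e j) = ∑ m, constantCoeff (e.repr (e i * e j) m) • b m := by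
    conv_lhs => rw [← e.sum_repr (e i * e j)]
    rw [map_sum]
    refine Finset.sum_congr rfl fun m _ => ?_
    rw [Algebra.smul_def, map_mul, q_algebraMap q hX hC, he m, hv, ← Algebra.smul_def]
  rw [← h1, h2, map_sum, Finsupp.coe_finsetSum, Finset.sum_apply]
  rw [Finset.sum_eq_single l]
  · simp
  · intro m _ hm
    simp [hm]
  · intro h; exact absurd (Finset.mem_univ l) h

/-- every finite flat `k[[t]]`-algebra with special fibre `A` has a basis whose structure constants
have non-zero constant coefficients. -/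
theorem exists_unit_basis [Infinite k] [Module.Finite k A] [Module.Finite k⟦X⟧ S]
    [Module.Flat k⟦X⟧ S] (q : S →+* A) (hq : Function.Surjective q)
    (hker : RingHom.ker q = Ideal.span {algebraMap k⟦X⟧ S X})
    (hC : ∀ a : k, q (algebraMap k⟦X⟧ S (C a)) = algebraMap k A a) :
    ∃ e : Module.Basis (Fin (Module.finrank k A)) k⟦X⟧ S, ∀ i j l,
      constantCoeff (e.repr (e i * e j) l) ≠ 0 := by
  obtain ⟨b, hb⟩ := exists_basis_struct_ne_zero (k := k) (A := A)
  obtain ⟨e, he⟩ := exists_lift_basis q hq hker hC b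
  exact ⟨e, fun i j l => by rw [he]; exact hb i j l⟩

end Pool.Agent.Y223.AD
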