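import Mathlib

/-!
# A finite separable extension splitting a geometrically reduced finite algebra
-/

set_option autoImplicit false

open TensorProduct

namespace Pool.Agent.Y223.AD

universe u

theorem formallyUnramified_of_reduced {Ω A : Type u} [Field Ω] [IsAlgClosed Ω] [CommRing A]
    [Algebra Ω A] [Module.Finite Ω A] [IsReduced A] : Algebra.FormallyEtale Ω A := by
  classical
  have : IsArtinianRing A := isArtinian_of_tower Ω inferInstance
  rw [Algebra.FormallyEtale.iff_exists_algEquiv_prod]
  let fld : ∀ m : MaximalSpectrum A, Field (A ⧸ m.asIdeal) := fun m => Ideal.Quotient.field m.asIdeal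
  refine ⟨MaximalSpectrum A, inferInstance, fun m => A ⧸ m.asIdeal, inferInstance, inferInstance,
    (IsArtinianRing.equivPi A).restrictScalars Ω, fun m => ?_⟩
  have : Algebra.IsAlgebraic Ω (A ⧸ m.asIdeal) := inferInstance
  exact Algebra.IsAlgebraic.isSeparable_of_perfectField

theorem exists_split {K E : Type u} [Field K] [CommRing E] [Algebra K E] [Module.Finite K E]
    (hred : IsReduced (AlgebraicClosure K ⊗[K] E)) :
    ∃ L : IntermediateField K (AlgebraicClosure K), FiniteDimensional K L ∧
      Algebra.IsSeparable K L ∧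
      Nonempty (L ⊗[K] E ≃ₐ[L] (Fin (Module.finrank K E) → L)) := by
  classical
  set Ω := AlgebraicClosure K with hΩ
  have hfe : Algebra.FormallyEtale Ω (Ω ⊗[K] E) := formallyUnramified_of_reduced
  have hfu : Algebra.FormallyUnramified K E :=
    Algebra.FormallyUnramified.of_formallyUnramified_tensorProduct_of_faithfullyFlat Ω
  have hfeE : Algebra.FormallyEtale K E := Algebra.FormallyEtale.of_formallyUnramified_of_field K E
  let e0 := Algebra.FormallyEtale.equivPiOfIsSepClosed Ω (Ω ⊗[K] E)
  have hfin : Finite (PrimeSpectrum (Ω ⊗[K] E)) := by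
    have : IsArtinianRing (Ω ⊗[K] E) := isArtinian_of_tower Ω inferInstance
    infer_instance
  have hcard : Nat.card (PrimeSpectrum (Ω ⊗[K] E)) = Nat.card (Fin (Module.finrank K E)) := by
    have := Fintype.ofFinite (PrimeSpectrum (Ω ⊗[K] E))
    have h1 := LinearEquiv.finrank_eq e0.toLinearEquiv
    rw [Module.finrank_pi, Module.finrank_baseChange] at h1
    rw [Nat.card_eq_fintype_card, ← h1]
    simp
  obtain ⟨ε⟩ := Finite.card_eq.1 hcard
  set d := Module.finrank K E with hd
  let e1 : Ω ⊗[K] E ≃ₐ[Ω] (Fin d → Ω) := e0.trans (AlgEquiv.piCongrLeft Ω (fun _ => Ω) ε)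
  let h : Fin d → E →ₐ[K] Ω := fun j =>
    ((Pi.evalAlgHom Ω (fun _ : Fin d => Ω) j).restrictScalars K).comp
      ((e1.toAlgHom.restrictScalars K).comp Algebra.TensorProduct.includeRight)
  have hh : ∀ j x, h j x = e1 (1 ⊗ₜ x) j := fun j x => rfl
  let b := Module.finBasis K E
  let T : Set Ω := Set.range fun q : Fin d × Fin (Module.finrank K E) => h q.1 (b q.2)
  have hTfin : T.Finite := Set.finite_range _
  let L : IntermediateField K Ω := IntermediateField.adjoin K T
  have hTL : T ⊆ L := IntermediateField.subset_adjoin K T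
  have hL : ∀ j x, h j x ∈ L := by
    intro j x
    rw [← b.sum_repr x, map_sum]
    refine sum_mem fun i _ => ?_
    rw [map_smul]
    exact L.smul_mem (hTL ⟨(j, i), rfl⟩)
  have hsep : ∀ j x, IsSeparable K (h j x) := by
    intro j x
    have hp : (RingHom.ker (h j)).IsPrime := RingHom.ker_isPrime _
    have h1 : Algebra.IsSeparable K (E ⧸ RingHom.ker (h j)) := inferInstance
    have h2 : IsSeparable K (Ideal.Quotient.mk (RingHom.ker (h j)) x) := h1.isSeparable' _
    have h3 : h j x = Ideal.kerLiftAlg (h j) (Ideal.Quotient.mk (RingHom.ker (h j)) x) := rfl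
    unfold IsSeparable at h2 ⊢
    rw [h3, minpoly.algHom_eq _ (Ideal.kerLiftAlg_injective (h j))]
    exact h2
  have hLfin : FiniteDimensional K L := by
    have : Finite T := hTfin
    exact IntermediateField.finiteDimensional_adjoin fun x _ => Algebra.IsIntegral.isIntegral x
  have hLsep : Algebra.IsSeparable K L := by
    rw [IntermediateField.isSeparable_adjoin_iff_isSeparable]
    rintro _ ⟨q, rfl⟩
    exact hsep _ _
  refine ⟨L, hLfin, hLsep, ?_⟩
  let hL' : Fin d → E →ₐ[K] L := fun j => (h j).codRestrict L.toSubalgebra (hL j)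
  let Hp : E →ₐ[K] (Fin d → L) := AlgHom.pi hL'
  let Θ : L ⊗[K] E →ₐ[L] (Fin d → L) :=
    Algebra.TensorProduct.lift (Algebra.ofId L (Fin d → L)) Hp (fun _ _ => Commute.all _ _)
  have hΘinj : Function.Injective Θ := by
    let ι : L →ₐ[K] Ω := L.val
    let J : L ⊗[K] E →ₐ[K] Ω ⊗[K] E := Algebra.TensorProduct.map ι (AlgHom.id K E)
    have hJ : Function.Injective J :=
      Module.Flat.rTensor_preserves_injective_linearMap (M := E) ι.toLinearMap ι.injective
    have hcomp : ∀ z j, ((Θ z j : L) : Ω) = e1 (J z) j := by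
      intro z j
      induction z with
      | zero => simp
      | add x y hx hy => simp only [map_add, Pi.add_apply] at *; rw [← hx, ← hy]; rfl
      | tmul l x =>
        have h1 : Θ (l ⊗ₜ x) j = l * hL' j x := by
          simp [Θ, Hp, Algebra.ofId_apply]
        have h2 : J (l ⊗ₜ x) = (l : Ω) • (1 ⊗ₜ x : Ω ⊗[K] E) := by
          simp [J, ι, TensorProduct.smul_tmul']
        rw [h1, h2, map_smul]
        rfl
    intro x y hxy
    apply hJ
    apply e1.injective
    funext j
    rw [← hcomp, ← hcomp, hxy]
  have hrank : Module.finrank L (L ⊗[K] E) = Module.finrank L (Fin d → L) := by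
    rw [Module.finrank_baseChange, Module.finrank_pi]
    simp [hd]
  have hΘ : Function.Bijective Θ := by
    refine ⟨hΘinj, ?_⟩
    exact (LinearMap.injective_iff_surjective_of_finrank_eq_finrank (f := Θ.toLinearMap) hrank).1 hΘinj
  exact ⟨AlgEquiv.ofBijective Θ hΘ⟩

end Pool.Agent.Y223.AD
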