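import Pool.Agent.Y223.AD.Pui
import Pool.Agent.Y223.AD.Split
import Pool.Agent.Y223.AD.Lift

/-!
# Base change
-/

set_option autoImplicit false

open PowerSeries TensorProduct
open scoped LaurentSeries

namespace Pool.Agent.Y223.AD

universe u

section generic

variable {R S K L F T : Type u} [CommRing R] [CommRing S] [Field K] [Field L] [Field F]
  [CommRing T] [Algebra R S] [Algebra S F] [Algebra R F] [IsScalarTower R S F]
  [Algebra R K] [Algebra K L] [Algebra R L] [IsScalarTower R K L]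
  [Algebra L F] [IsScalarTower R L F] [Algebra R T]

/-- the generic fibre of the base change is split -/
theorem generic_split {n : ℕ} (h : Nonempty (L ⊗[K] (K ⊗[R] T) ≃ₐ[L] (Fin n → L))) :
    Nonempty (F ⊗[S] (S ⊗[R] T) ≃ₐ[F] (Fin n → F)) := by
  obtain ⟨e⟩ := h
  let e1 : F ⊗[S] (S ⊗[R] T) ≃ₐ[F] F ⊗[R] T := Algebra.TensorProduct.cancelBaseChange R S F F T
  let e2 : F ⊗[L] (L ⊗[R] T) ≃ₐ[F] F ⊗[R] T := Algebra.TensorProduct.cancelBaseChange R L F F T
  let e3 : L ⊗[K] (K ⊗[R] T) ≃ₐ[L] L ⊗[R] T := Algebra.TensorProduct.cancelBaseChange R K L L T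
  let e4 : L ⊗[R] T ≃ₐ[L] (Fin n → L) := e3.symm.trans e
  let e5 : F ⊗[L] (L ⊗[R] T) ≃ₐ[F] F ⊗[L] (Fin n → L) :=
    Algebra.TensorProduct.congr (AlgEquiv.refl : F ≃ₐ[F] F) e4
  let e6 : F ⊗[L] (Fin n → L) ≃ₐ[F] (Fin n → F) := Algebra.TensorProduct.piScalarRight L F F (Fin n)
  exact ⟨e1.trans (e2.symm.trans (e5.trans e6))⟩

end generic

section special

variable {k A R S T : Type u} [Field k] [CommRing A] [Algebra k A] [CommRing R] [CommRing S]
  [CommRing T] [Algebra R S] [Algebra R T]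

/-- the special fibre of the base change -/
theorem special_fibre (jR : k →+* R) (jS : k →+* S) (hj : ∀ c, algebraMap R S (jR c) = jS c)
    (xR : R) (xS : S) (hx : xS ∣ algebraMap R S xR) (ev : S →+* k) (hev : ∀ c, ev (jS c) = c)
    (hevx : ev xS = 0) (hS : ∀ s : S, ∃ s', s = jS (ev s) + xS * s')
    (q : T →+* A) (hq : Function.Surjective q) (hker : RingHom.ker q = Ideal.span {algebraMap R T xR})
    (hqR : ∀ r, q (algebraMap R T r) = algebraMap k A (ev (algebraMap R S r))) :
    ∃ q' : S ⊗[R] T →+* A, Function.Surjective q' ∧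
      RingHom.ker q' = Ideal.span {algebraMap S (S ⊗[R] T) xS} ∧
      ∀ c : k, q' (algebraMap S (S ⊗[R] T) (jS c)) = algebraMap k A c := by
  let algA : Algebra R A := (q.comp (algebraMap R T)).toAlgebra
  let fS : S →ₐ[R] A := { (algebraMap k A).comp ev with
    commutes' := fun r => (hqR r).symm }
  let fT : T →ₐ[R] A := { q with commutes' := fun r => rfl }
  let Q : S ⊗[R] T →ₐ[R] A := Algebra.TensorProduct.lift fS fT (fun _ _ => Commute.all _ _)
  have hQ : ∀ s t, Q (s ⊗ₜ t) = algebraMap k A (ev s) * q t := fun s t => by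
    simp [Q, fS, fT]
  have hdec : ∀ z : S ⊗[R] T, ∃ (t : T) (w : S ⊗[R] T), z = 1 ⊗ₜ t + algebraMap S (S ⊗[R] T) xS * w := by
    intro z
    induction z with
    | zero => exact ⟨0, 0, by simp⟩
    | add x y hx hy =>
      obtain ⟨t, w, rfl⟩ := hx
      obtain ⟨t', w', rfl⟩ := hy
      exact ⟨t + t', w + w', by rw [TensorProduct.tmul_add]; ring⟩
    | tmul s t =>
      obtain ⟨s', hs'⟩ := hS s
      refine ⟨algebraMap R T (jR (ev s)) * t, s' ⊗ₜ t, ?_⟩
      have h1 : (1 : S) ⊗ₜ[R] (algebraMap R T (jR (ev s)) * t) = (jS (ev s)) ⊗ₜ[R] t := by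
        rw [← Algebra.smul_def, TensorProduct.tmul_smul, TensorProduct.smul_tmul', ← hj,
          Algebra.smul_def, mul_one]
      rw [h1, Algebra.TensorProduct.algebraMap_apply, Algebra.TensorProduct.tmul_mul_tmul, one_mul]
      conv_lhs => rw [hs']
      rw [TensorProduct.add_tmul]
      rfl
  refine ⟨Q.toRingHom, ?_, ?_, ?_⟩
  · intro a
    obtain ⟨t, rfl⟩ := hq a
    refine ⟨1 ⊗ₜ t, ?_⟩
    change Q _ = _
    rw [hQ, map_one, map_one, one_mul]
  · apply le_antisymm
    · intro z hz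
      obtain ⟨t, w, rfl⟩ := hdec z
      have h0 : Q (1 ⊗ₜ t + algebraMap S (S ⊗[R] T) xS * w) = 0 := hz
      rw [map_add, map_mul, hQ, Algebra.TensorProduct.algebraMap_apply, hQ] at h0
      change _ + algebraMap k A (ev xS) * q 1 * _ = 0 at h0
      rw [hevx, map_zero, zero_mul, zero_mul, add_zero, map_one, map_one, one_mul] at h0
      rw [← RingHom.mem_ker, hker, Ideal.mem_span_singleton] at h0
      obtain ⟨t', rfl⟩ := h0
      refine Ideal.add_mem _ ?_ (Ideal.mul_mem_right _ _ (Ideal.mem_span_singleton_self _))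
      rw [← Algebra.smul_def, TensorProduct.tmul_smul, TensorProduct.smul_tmul', Algebra.smul_def,
        mul_one, Ideal.mem_span_singleton]
      obtain ⟨g, hg⟩ := hx
      refine ⟨g ⊗ₜ t', ?_⟩
      rw [Algebra.TensorProduct.algebraMap_apply, Algebra.TensorProduct.tmul_mul_tmul, one_mul, hg]
      rfl
    · rw [Ideal.span_le]
      rintro _ rfl
      change Q (algebraMap S (S ⊗[R] T) xS) = 0
      rw [Algebra.TensorProduct.algebraMap_apply, hQ]
      change algebraMap k A (ev xS) * _ = 0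
      rw [hevx, map_zero, zero_mul]
  · intro c
    change Q (algebraMap S (S ⊗[R] T) (jS c)) = _
    rw [Algebra.TensorProduct.algebraMap_apply, hQ]
    change algebraMap k A (ev (jS c)) * _ = _
    rw [hev, map_one, mul_one]

end special

end Pool.Agent.Y223.AD
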