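import Mathlib

/-!
# Expansion in powers of a uniformizer

If `k → V / π V` is bijective then the expansion in powers of `π` is a ring homomorphism
`V → k[[X]]`.
-/

set_option autoImplicit false

open PowerSeries

namespace Pool.Agent.Y223.AD

variable {k V : Type*} [Field k] [CommRing V] [IsDomain V] [Algebra k V]

structure Unif (k : Type*) {V : Type*} [Field k] [CommRing V] [Algebra k V] (p : V) : Prop where
  ne : p ≠ 0
  nonunit : ¬ IsUnit p
  dec : ∀ b : V, ∃ (c : k) (b' : V), b = algebraMap k V c + p * b'

variable {p : V} (h : Unif k p)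

include h in
theorem Unif.unique {c c' : k} {b b' : V}
    (e : algebraMap k V c + p * b = algebraMap k V c' + p * b') : c = c' ∧ b = b' := by
  have h1 : c = c' := by
    by_contra hne
    apply h.nonunit
    have h2 : p * (b' - b) = algebraMap k V (c - c') := by
      rw [map_sub]; linear_combination -e
    have h3 : IsUnit (algebraMap k V (c - c')) := (sub_ne_zero.2 hne).isUnit.map _
    rw [← h2] at h3
    exact isUnit_of_mul_isUnit_left h3
  refine ⟨h1, ?_⟩
  rw [h1] at e
  exact mul_left_cancel₀ h.ne (add_left_cancel e)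

noncomputable def c0 (b : V) : k := (h.dec b).choose
noncomputable def sg (b : V) : V := (h.dec b).choose_spec.choose

theorem dec_eq (b : V) : b = algebraMap k V (c0 h b) + p * sg h b :=
  (h.dec b).choose_spec.choose_spec

theorem c0_sg_of_eq {b : V} {c : k} {b' : V} (e : b = algebraMap k V c + p * b') :
    c0 h b = c ∧ sg h b = b' :=
  h.unique ((dec_eq h b).symm.trans e)

noncomputable def Ph (b : V) : k⟦X⟧ := PowerSeries.mk fun n => c0 h ((sg h)^[n] b)

theorem Ph_eq (b : V) : Ph h b = C (c0 h b) + X * Ph h (sg h b) := by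
  ext n
  cases n with
  | zero => simp [Ph]
  | succ n => simp [Ph, coeff_succ_X_mul]

theorem c0_add (a b : V) : c0 h (a + b) = c0 h a + c0 h b ∧ sg h (a + b) = sg h a + sg h b := by
  apply c0_sg_of_eq
  conv_lhs => rw [dec_eq h a, dec_eq h b]
  rw [map_add]; ring

theorem Ph_add (a b : V) : Ph h (a + b) = Ph h a + Ph h b := by
  have key : ∀ n a b, (sg h)^[n] (a + b) = (sg h)^[n] a + (sg h)^[n] b := by
    intro n
    induction n with
    | zero => intro a b; rfl
    | succ n ih => intro a b; rw [Function.iterate_succ_apply, (c0_add h a b).2, ih]; rfl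
  ext n
  simp only [Ph, coeff_mk, map_add]
  rw [key, (c0_add h _ _).1]

theorem Ph_smul (c : k) (a : V) : Ph h (algebraMap k V c * a) = C c * Ph h a := by
  have h1 : ∀ a, c0 h (algebraMap k V c * a) = c * c0 h a ∧
      sg h (algebraMap k V c * a) = algebraMap k V c * sg h a := by
    intro a
    apply c0_sg_of_eq
    conv_lhs => rw [dec_eq h a]
    rw [map_mul]; ring
  have key : ∀ n a, (sg h)^[n] (algebraMap k V c * a) = algebraMap k V c * (sg h)^[n] a := by
    intro n
    induction n with
    | zero => intro a; rfl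
    | succ n ih => intro a; rw [Function.iterate_succ_apply, (h1 a).2, ih]; rfl
  ext n
  rw [coeff_C_mul]
  simp only [Ph, coeff_mk]
  rw [key, (h1 _).1]

theorem Ph_p_mul (a : V) : Ph h (p * a) = X * Ph h a := by
  have h1 := c0_sg_of_eq h (b := p * a) (c := 0) (b' := a) (by rw [map_zero, zero_add])
  rw [Ph_eq h (p * a), h1.1, h1.2, map_zero, zero_add]

theorem Ph_algebraMap (c : k) : Ph h (algebraMap k V c) = C c := by
  have h0 : Ph h (0 : V) = 0 := by
    have := Ph_add h (0 : V) 0
    rw [add_zero] at this
    exact left_eq_add.1 this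
  have h1 := c0_sg_of_eq h (b := algebraMap k V c) (c := c) (b' := 0) (by rw [mul_zero, add_zero])
  rw [Ph_eq h _, h1.1, h1.2, h0, mul_zero, add_zero]

theorem Ph_mul (a b : V) : Ph h (a * b) = Ph h a * Ph h b := by
  have key : ∀ n : ℕ, ∀ a b, X ^ n ∣ Ph h (a * b) - Ph h a * Ph h b := by
    intro n
    induction n with
    | zero => intro a b; simp
    | succ n ih =>
      intro a b
      have h1 : a * b = algebraMap k V (c0 h a) * b + p * (sg h a * b) := by
        conv_lhs => rw [dec_eq h a]
        ring
      rw [h1, Ph_add, Ph_smul, Ph_p_mul]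
      conv_rhs => rw [Ph_eq h a]
      have h2 : C (c0 h a) * Ph h b + X * Ph h (sg h a * b) -
          (C (c0 h a) + X * Ph h (sg h a)) * Ph h b =
          X * (Ph h (sg h a * b) - Ph h (sg h a) * Ph h b) := by ring
      rw [h2, pow_succ']
      exact mul_dvd_mul_left _ (ih _ _)
  rw [← sub_eq_zero]
  ext n
  rw [map_zero]
  exact (X_pow_dvd_iff.1 (key (n + 1) a b)) n (Nat.lt_succ_self n)

/-- the expansion homomorphism -/
noncomputable def PhHom : V →+* k⟦X⟧ where
  toFun := Ph h
  map_one' := by
    have := Ph_algebraMap h (1 : k)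
    rwa [map_one, map_one] at this
  map_mul' := Ph_mul h
  map_zero' := by
    have := Ph_algebraMap h (0 : k)
    rwa [map_zero, map_zero] at this
  map_add' := Ph_add h

theorem PhHom_injective [IsNoetherianRing V] : Function.Injective (PhHom h) := by
  rw [injective_iff_map_eq_zero]
  intro b hb
  have key : ∀ n : ℕ, ∀ b, Ph h b = 0 → b ∈ Ideal.span {p} ^ n := by
    intro n
    induction n with
    | zero => intro b _; simp
    | succ n ih =>
      intro b hb
      have h1 := Ph_eq h b
      rw [hb] at h1
      have h2 : c0 h b = 0 := by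
        have := congrArg (constantCoeff (R := k)) h1
        simpa using this.symm
      rw [h2, map_zero, zero_add] at h1
      have h3 : Ph h (sg h b) = 0 := by
        rcases mul_eq_zero.1 h1.symm with h4 | h4
        · exact absurd h4 X_ne_zero
        · exact h4
      have h4 := ih _ h3
      rw [dec_eq h b, h2, map_zero, zero_add, pow_succ']
      exact Ideal.mul_mem_mul (Ideal.mem_span_singleton_self _) h4
  have hne : Ideal.span {p} ≠ ⊤ := by
    rw [Ne, Ideal.span_singleton_eq_top]; exact h.nonunit
  have h5 := Ideal.iInf_pow_eq_bot_of_isDomain (Ideal.span {p}) hne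
  have h6 : b ∈ ⨅ i : ℕ, Ideal.span {p} ^ i := by
    rw [Ideal.mem_iInf]
    exact fun n => key n b hb
  rw [h5] at h6
  exact h6

end Pool.Agent.Y223.AD

namespace Pool.Agent.Y223.AD

theorem exists_expansion {k V : Type*} [Field k] [CommRing V] [IsDomain V] [IsNoetherianRing V]
    (i : k →+* V) (p : V) (hne : p ≠ 0) (hu : ¬ IsUnit p)
    (hdec : ∀ b : V, ∃ (c : k) (b' : V), b = i c + p * b') :
    ∃ Φ : V →+* k⟦X⟧, Function.Injective Φ ∧ (∀ a, Φ (i a) = C a) ∧ Φ p = X := by
  let _ : Algebra k V := i.toAlgebra
  have h : Unif k p := ⟨hne, hu, hdec⟩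
  refine ⟨PhHom h, PhHom_injective h, fun a => Ph_algebraMap h a, ?_⟩
  have h1 := Ph_p_mul h (1 : V)
  have h2 : Ph h (1 : V) = 1 := (PhHom h).map_one
  rw [mul_one, h2, mul_one] at h1
  exact h1

end Pool.Agent.Y223.AD
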