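import Mathlib

/-!
# A basis with non-zero structure constants

Every finite-dimensional commutative algebra over an infinite field has a basis all of whose
structure constants are non-zero.
-/

set_option autoImplicit false

open Matrix

namespace Pool.Agent.Y223.AD

variable {k A : Type*} [Field k] [CommRing A] [Algebra k A]

theorem sumExtend_inl {V ι : Type*} [AddCommGroup V] [Module k V] {v : ι → V}
    (hs : LinearIndependent k v) (i : ι) : Module.Basis.sumExtend hs (Sum.inl i) = v i := by
  simp only [Module.Basis.sumExtend, Module.Basis.coe_reindex, Function.comp_apply,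
    Equiv.symm_symm, Module.Basis.extend_apply_self]
  rfl

/-- extension of a linearly independent family indexed by a subset of `Fin d` to a basis -/
theorem exists_basis_extending [Module.Finite k A] (s : Set (Fin (Module.finrank k A)))
    (v : s → A) (hv : LinearIndependent k v) :
    ∃ b : Module.Basis (Fin (Module.finrank k A)) k A, ∀ i : s, b i = v i := by
  classical
  let B := Module.Basis.sumExtend hv
  have hfin : Finite (s ⊕ (Module.Basis.sumExtendIndex hv)) := Module.Finite.finite_basis B
  have hfin2 : Finite (Module.Basis.sumExtendIndex hv) := Finite.sum_right s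
  have hc : Nat.card (s ⊕ (Module.Basis.sumExtendIndex hv)) = Nat.card (s ⊕ (sᶜ : Set _)) := by
    rw [← Module.finrank_eq_nat_card_basis B]
    rw [Nat.card_congr (Equiv.Set.sumCompl s)]
    simp
  rw [Nat.card_sum, Nat.card_sum] at hc
  have hc2 : Nat.card (Module.Basis.sumExtendIndex hv) = Nat.card (sᶜ : Set _) := by omega
  obtain ⟨e⟩ : Nonempty (Module.Basis.sumExtendIndex hv ≃ (sᶜ : Set _)) := Finite.card_eq.1 hc2
  let f : s ⊕ (Module.Basis.sumExtendIndex hv) ≃ Fin (Module.finrank k A) :=
    (Equiv.sumCongr (Equiv.refl s) e).trans (Equiv.Set.sumCompl s)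
  refine ⟨B.reindex f, ?_⟩
  intro i
  have h1 : f.symm (i : Fin (Module.finrank k A)) = Sum.inl i := by
    rw [Equiv.symm_apply_eq]
    simp [f]
  rw [Module.Basis.reindex_apply, h1]
  exact sumExtend_inl hv i

end Pool.Agent.Y223.AD
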