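import Pool.Agent.Y223.AD.Gen

/-!
# A basis with non-zero structure constants, part 2
-/

set_option autoImplicit false

open Matrix

namespace Pool.Agent.Y223.AD

variable {k A : Type*} [Field k] [CommRing A] [Algebra k A]

/-- an element which is not a scalar -/
theorem exists_sq_indep [Infinite k] [Module.Finite k A] (h : 2 ≤ Module.finrank k A) :
    ∃ a : A, LinearIndependent k ![a, a * a] := by
  by_contra hcon
  push Not at hcon
  have hnt : Nontrivial A := Module.nontrivial_of_finrank_pos (R := k) (by omega)
  -- an element independent of 1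
  obtain ⟨u, hu⟩ : ∃ u : A, u ∉ Submodule.span k {(1 : A)} := by
    by_contra hc
    push Not at hc
    have : Submodule.span k {(1 : A)} = ⊤ := by
      rw [eq_top_iff]; intro x _; exact hc x
    have h2 : Module.finrank k A ≤ 1 := by
      rw [← finrank_top, ← this]
      exact (finrank_span_le_card _).trans (by simp)
    omega
  have hu1 : LinearIndependent k ![(1 : A), u] := by
    rw [LinearIndependent.pair_iff' one_ne_zero]
    intro a ha
    exact hu (by rw [← ha]; exact Submodule.smul_mem _ _ (Submodule.mem_span_singleton_self _))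
  have key : ∀ s : k, ∃ l : k, (u + algebraMap k A s) * (u + algebraMap k A s) =
      l • (u + algebraMap k A s) := by
    intro s
    have h1 := hcon (u + algebraMap k A s)
    have hne : u + algebraMap k A s ≠ 0 := by
      intro h0
      apply hu
      rw [eq_neg_of_add_eq_zero_left h0, Algebra.algebraMap_eq_smul_one]
      exact Submodule.neg_mem _ (Submodule.smul_mem _ _ (Submodule.mem_span_singleton_self _))
    rw [LinearIndependent.pair_iff' hne] at h1
    push Not at h1
    obtain ⟨a, ha⟩ := h1
    exact ⟨a, ha.symm⟩
  have hlin : ∀ a b c d : k, a • (1 : A) + b • u = c • (1 : A) + d • u → a = c ∧ b = d := by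
    intro a b c d hh
    rw [LinearIndependent.pair_iff] at hu1
    have := hu1 (a - c) (b - d) (by
      rw [sub_smul, sub_smul]
      linear_combination (exp := 1) hh)
    exact ⟨sub_eq_zero.1 this.1, sub_eq_zero.1 this.2⟩
  obtain ⟨l0, hl0⟩ := key 0
  rw [map_zero, add_zero] at hl0
  have key2 : ∀ s : k, s * (l0 + s) = 0 := by
    intro s
    obtain ⟨l, hl⟩ := key s
    have h1 : (s * s) • (1 : A) + (l0 + 2 * s) • u = (l * s) • (1 : A) + l • u := by
      rw [Algebra.algebraMap_eq_smul_one] at hl
      have e1 : (u + s • (1 : A)) * (u + s • (1 : A)) = u * u + (2 * s) • u + (s * s) • (1 : A) := by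
        simp only [Algebra.smul_def, mul_one, map_mul, map_ofNat]
        ring
      rw [e1, hl0] at hl
      rw [add_smul, mul_smul l s]
      have e2 : l • (u + s • (1 : A)) = l • u + l • s • (1 : A) := smul_add _ _ _
      rw [e2] at hl
      linear_combination (exp := 1) hl
    obtain ⟨h2, h3⟩ := hlin _ _ _ _ h1
    rw [← h3] at h2
    linear_combination -h2
  obtain ⟨s, hs⟩ := Set.Infinite.nonempty ((Set.infinite_univ (α := k)).diff
    (Set.toFinite ({0, -l0} : Set k)))
  have h3 := key2 s
  rcases mul_eq_zero.1 h3 with h4 | h4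
  · exact hs.2 (by simp [h4])
  · exact hs.2 (by simp [eq_neg_of_add_eq_zero_right h4])

/-- two elements which together with their product are linearly independent -/
theorem exists_mul_indep [Module.Finite k A] (h : 3 ≤ Module.finrank k A) :
    ∃ a b : A, LinearIndependent k ![a, b, a * b] := by
  by_contra hcon
  push Not at hcon
  have hnt : Nontrivial A := Module.nontrivial_of_finrank_pos (R := k) (by omega)
  -- 1, u, v independent
  have hone : LinearIndependent k (fun _ : ({⟨0, by omega⟩} : Set (Fin (Module.finrank k A))) => (1 : A)) := by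
    rw [linearIndependent_unique_iff]
    exact one_ne_zero
  obtain ⟨b, hb⟩ := exists_basis_extending _ _ hone
  set i0 : Fin (Module.finrank k A) := ⟨0, by omega⟩
  set i1 : Fin (Module.finrank k A) := ⟨1, by omega⟩
  set i2 : Fin (Module.finrank k A) := ⟨2, by omega⟩
  have hb0 : b i0 = 1 := hb ⟨i0, rfl⟩
  set u := b i1 with hu
  set v := b i2 with hv
  have hlin : ∀ x y z : k, x • (1 : A) + y • u + z • v = 0 → x = 0 ∧ y = 0 ∧ z = 0 := by
    intro x y z hh
    have h1 : b.repr (x • (1 : A) + y • u + z • v) = 0 := by rw [hh, map_zero]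
    rw [← hb0, hu, hv] at h1
    simp only [map_add, map_smul, Module.Basis.repr_self] at h1
    have e01 : i0 ≠ i1 := by simp [i0, i1]
    have e02 : i0 ≠ i2 := by simp [i0, i2]
    have e12 : i1 ≠ i2 := by simp [i1, i2]
    refine ⟨?_, ?_, ?_⟩
    · have := DFunLike.congr_fun h1 i0
      simpa [Finsupp.single_apply, e01, e02, e12, e01.symm, e02.symm, e12.symm] using this
    · have := DFunLike.congr_fun h1 i1
      simpa [Finsupp.single_apply, e01, e02, e12, e01.symm, e02.symm, e12.symm] using this
    · have := DFunLike.congr_fun h1 i2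
      simpa [Finsupp.single_apply, e01, e02, e12, e01.symm, e02.symm, e12.symm] using this
  have key : ∀ s t : k, ∃ l m : k, (u + algebraMap k A s) * (v + algebraMap k A t) =
      l • (u + algebraMap k A s) + m • (v + algebraMap k A t) := by
    intro s t
    have h1 := hcon (u + algebraMap k A s) (v + algebraMap k A t)
    rw [Fintype.not_linearIndependent_iff] at h1
    obtain ⟨g, hg, j, hj⟩ := h1
    rw [Fin.sum_univ_three] at hg
    simp only [Matrix.cons_val_zero, Matrix.cons_val_one, Matrix.cons_val_two, Matrix.head_cons,
      Matrix.tail_cons, Matrix.cons_val] at hg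
    by_cases h2 : g 2 = 0
    · exfalso
      rw [h2, zero_smul, add_zero, Algebra.algebraMap_eq_smul_one,
        Algebra.algebraMap_eq_smul_one] at hg
      have h3 := hlin (g 0 * s + g 1 * t) (g 0) (g 1) (by
        rw [← hg, add_smul, mul_smul, mul_smul, smul_add, smul_add]
        abel)
      fin_cases j
      · exact hj h3.2.1
      · exact hj h3.2.2
      · exact hj h2
    · refine ⟨-(g 2)⁻¹ * g 0, -(g 2)⁻¹ * g 1, ?_⟩
      have h3 : g 2 • ((u + algebraMap k A s) * (v + algebraMap k A t)) =
          -(g 0 • (u + algebraMap k A s) + g 1 • (v + algebraMap k A t)) := by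
        rw [eq_neg_iff_add_eq_zero, ← hg]
        abel
      have h4 : (u + algebraMap k A s) * (v + algebraMap k A t) = (g 2)⁻¹ • g 2 •
          ((u + algebraMap k A s) * (v + algebraMap k A t)) := by
        rw [inv_smul_smul₀ h2]
      rw [h4, h3, smul_neg, smul_add, mul_smul, mul_smul, neg_smul, neg_smul]
      abel
  obtain ⟨l0, m0, h0⟩ := key 0 0
  rw [map_zero, add_zero, add_zero] at h0
  have key2 : ∀ s t : k, s * t + l0 * s + m0 * t = 0 := by
    intro s t
    obtain ⟨l, m, hlm⟩ := key s t
    rw [Algebra.algebraMap_eq_smul_one, Algebra.algebraMap_eq_smul_one] at hlm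
    have e1 : (u + s • (1 : A)) * (v + t • (1 : A)) = u * v + t • u + s • v + (s * t) • (1 : A) := by
      simp only [Algebra.smul_def, mul_one, map_mul]
      ring
    rw [e1, h0] at hlm
    have h1 := hlin (s * t - l * s - m * t) (l0 + t - l) (m0 + s - m) (by
      rw [smul_add, smul_add] at hlm
      rw [sub_smul, sub_smul, sub_smul, sub_smul, add_smul, add_smul, mul_smul l s, mul_smul m t]
      linear_combination (exp := 1) hlm)
    obtain ⟨h2, h3, h4⟩ := h1
    have h5 : l = l0 + t := by linear_combination -h3
    have h6 : m = m0 + s := by linear_combination -h4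
    rw [h5, h6] at h2
    linear_combination -h2
  have h1 := key2 1 0
  have h2 := key2 0 1
  have h3 := key2 1 1
  have h4 : l0 = 0 := by linear_combination h1
  have h5 : m0 = 0 := by linear_combination h2
  rw [h4, h5] at h3
  simp at h3

end Pool.Agent.Y223.AD
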