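import Pool.Agent.Y223.AD.Gen2

/-!
# A basis with non-zero structure constants, part 3
-/

set_option autoImplicit false

open Matrix

namespace Pool.Agent.Y223.AD

variable {k A : Type*} [Field k] [CommRing A] [Algebra k A]

/-- for each triple of indices there is a basis with `b l = b i * b j` -/
theorem exists_basis_mul [Infinite k] [Module.Finite k A] (i j l : Fin (Module.finrank k A)) :
    ∃ b : Module.Basis (Fin (Module.finrank k A)) k A, b l = b i * b j := by
  classical
  have hpos : 0 < Module.finrank k A := lt_of_le_of_lt (Nat.zero_le _) i.2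
  have hnt : Nontrivial A := Module.nontrivial_of_finrank_pos (R := k) hpos
  have hone : ∀ m : Fin (Module.finrank k A),
      ∃ b : Module.Basis (Fin (Module.finrank k A)) k A, b m = 1 := by
    intro m
    have hone : LinearIndependent k (fun _ : ({m} : Set (Fin (Module.finrank k A))) => (1 : A)) := by
      rw [linearIndependent_unique_iff]
      exact one_ne_zero
    obtain ⟨b, hb⟩ := exists_basis_extending _ _ hone
    exact ⟨b, hb ⟨m, rfl⟩⟩
  by_cases hli : l = i
  · obtain ⟨b, hb⟩ := hone j
    exact ⟨b, by rw [hb, mul_one, hli]⟩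
  by_cases hlj : l = j
  · obtain ⟨b, hb⟩ := hone i
    exact ⟨b, by rw [hb, one_mul, hlj]⟩
  by_cases hij : i = j
  · subst hij
    have h2 : 2 ≤ Module.finrank k A := by
      by_contra hc
      exact hli (by ext; omega)
    obtain ⟨a, ha⟩ := exists_sq_indep (k := k) h2
    let f : ({i, l} : Set (Fin (Module.finrank k A))) → Fin 2 := fun x => if (x : Fin _) = i then 0 else 1
    have hf : Function.Injective f := by
      rintro ⟨x, hx⟩ ⟨y, hy⟩ hxy
      simp only [f] at hxy
      rcases hx with rfl | hx <;> rcases hy with rfl | hy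
      · rfl
      · simp only [Set.mem_singleton_iff] at hy
        subst hy
        simp [hli] at hxy
      · simp only [Set.mem_singleton_iff] at hx
        subst hx
        simp [hli] at hxy
      · simp only [Set.mem_singleton_iff] at hx hy
        subst hx; subst hy; rfl
    obtain ⟨b, hb⟩ := exists_basis_extending _ _ (ha.comp f hf)
    refine ⟨b, ?_⟩
    have h1 := hb ⟨i, by simp⟩
    have h3 := hb ⟨l, by simp⟩
    simp only [Function.comp_apply, f, if_true, if_neg hli] at h1 h3
    rw [h1, h3]
    simp
  · have h2 : 3 ≤ Module.finrank k A := by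
      have h4 : ({i, j, l} : Finset (Fin (Module.finrank k A))).card ≤ _ := Finset.card_le_univ _
      rw [Finset.card_insert_of_notMem, Finset.card_insert_of_notMem, Finset.card_singleton,
        Fintype.card_fin] at h4
      · exact h4
      · simpa using fun h => hlj h.symm
      · simp only [Finset.mem_insert, Finset.mem_singleton, not_or]
        exact ⟨hij, fun h => hli h.symm⟩
    obtain ⟨x, y, hxy⟩ := exists_mul_indep (k := k) h2
    let f : ({i, j, l} : Set (Fin (Module.finrank k A))) → Fin 3 :=
      fun z => if (z : Fin _) = i then 0 else if (z : Fin _) = j then 1 else 2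
    have hji : j ≠ i := fun h => hij h.symm
    have hf : Function.Injective f := by
      rintro ⟨z, hz⟩ ⟨w, hw⟩ hzw
      simp only [f] at hzw
      simp only [Set.mem_insert_iff, Set.mem_singleton_iff] at hz hw
      rcases hz with rfl | rfl | rfl <;> rcases hw with rfl | rfl | rfl <;>
        simp_all
    obtain ⟨b, hb⟩ := exists_basis_extending _ _ (hxy.comp f hf)
    refine ⟨b, ?_⟩
    have h1 := hb ⟨i, by simp⟩
    have h3 := hb ⟨j, by simp⟩
    have h4 := hb ⟨l, by simp⟩
    simp only [Function.comp_apply, f, if_true, if_neg hli, if_neg hlj, if_neg hji] at h1 h3 h4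
    rw [h1, h3, h4]
    simp

/-- Cramer's rule -/
theorem det_update_eq {n : Type*} [Fintype n] [DecidableEq n] (b0 b : Module.Basis n k A) (l : n)
    (x : A) : b0.det (Function.update b l x) = b.repr x l * b0.det b := by
  conv_lhs => rw [← b.sum_repr x]
  rw [AlternatingMap.map_update_sum]
  rw [Finset.sum_eq_single l]
  · rw [AlternatingMap.map_update_smul, Function.update_eq_self, smul_eq_mul]
  · intro m _ hm
    rw [AlternatingMap.map_update_smul]
    have : b0.det (Function.update b l (b m)) = 0 := by
      apply AlternatingMap.map_eq_zero_of_eq _ _ (i := l) (j := m) _ (Ne.symm hm)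
      rw [Function.update_self, Function.update_of_ne hm]
    rw [this, smul_zero]
  · intro h; exact absurd (Finset.mem_univ l) h

/-- Every finite-dimensional commutative algebra over an infinite field has a basis with non-zero
structure constants. -/
theorem exists_basis_struct_ne_zero [Infinite k] [Module.Finite k A] :
    ∃ b : Module.Basis (Fin (Module.finrank k A)) k A, ∀ i j l, b.repr (b i * b j) l ≠ 0 := by
  classical
  set d := Module.finrank k A with hd
  let b0 : Module.Basis (Fin d) k A := Module.finBasis k A
  let vec : Matrix (Fin d) (Fin d) k → Fin d → A := fun N i => ∑ a, N a i • b0 a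
  have hvec : ∀ N, b0.toMatrix (vec N) = N := by
    intro N
    ext a i
    simp [vec, Module.Basis.toMatrix_apply, Finsupp.single_apply]
  let Pc : Fin d → Fin d → Fin d → MvPolynomial (Fin d × Fin d) k := fun i j m =>
    ∑ a, ∑ b, MvPolynomial.X (a, i) * MvPolynomial.X (b, j) *
      MvPolynomial.C (b0.repr (b0 a * b0 b) m)
  let P : Fin d × Fin d × Fin d → MvPolynomial (Fin d × Fin d) k := fun q =>
    ((Matrix.mvPolynomialX (Fin d) (Fin d) k).updateCol q.2.2 (Pc q.1 q.2.1)).det
  have hP : ∀ (N : Matrix (Fin d) (Fin d) k) q, MvPolynomial.eval (fun p => N p.1 p.2) (P q) =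
      b0.det (Function.update (vec N) q.2.2 (vec N q.1 * vec N q.2.1)) := by
    intro N q
    rw [Module.Basis.det_apply, Module.Basis.toMatrix_update, hvec]
    simp only [P]
    rw [RingHom.map_det]
    congr 1
    ext a i
    simp only [RingHom.mapMatrix_apply, Matrix.map_apply, Matrix.updateCol_apply]
    split_ifs with h
    · simp only [Pc, map_sum, map_mul, MvPolynomial.eval_X, MvPolynomial.eval_C, vec]
      rw [Finset.sum_mul_sum]
      simp only [map_sum, Finsupp.coe_finsetSum, Finset.sum_apply, smul_mul_smul_comm, map_smul,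
        Finsupp.coe_smul, Pi.smul_apply, smul_eq_mul]
    · simp
  let D : MvPolynomial (Fin d × Fin d) k := (Matrix.mvPolynomialX (Fin d) (Fin d) k).det
  have hD : ∀ N : Matrix (Fin d) (Fin d) k, MvPolynomial.eval (fun p => N p.1 p.2) D =
      b0.det (vec N) := by
    intro N
    rw [Module.Basis.det_apply, hvec]
    simp only [D]
    rw [RingHom.map_det, Matrix.mvPolynomialX_mapMatrix_eval]
  have hbas : ∀ b : Module.Basis (Fin d) k A, vec (b0.toMatrix b) = b := by
    intro b
    funext i
    simp only [vec, Module.Basis.toMatrix_apply]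
    exact b0.sum_repr (b i)
  have hD0 : D ≠ 0 := by
    intro h
    have := hD (b0.toMatrix b0)
    rw [h, map_zero, hbas, b0.det_self] at this
    exact zero_ne_one this
  have hP0 : ∀ q, P q ≠ 0 := by
    intro q h
    obtain ⟨b, hb⟩ := exists_basis_mul (k := k) (A := A) q.1 q.2.1 q.2.2
    have h1 := hP (b0.toMatrix b) q
    rw [h, map_zero, hbas, ← hb, Function.update_eq_self] at h1
    exact (b0.isUnit_det b).ne_zero h1.symm
  have hprod : D * ∏ q, P q ≠ 0 := mul_ne_zero hD0 (Finset.prod_ne_zero_iff.2 fun q _ => hP0 q)
  obtain ⟨x, hx⟩ : ∃ x, MvPolynomial.eval x (D * ∏ q, P q) ≠ 0 := by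
    by_contra hcon
    push Not at hcon
    exact hprod (MvPolynomial.funext fun x => by rw [hcon x, map_zero])
  let N : Matrix (Fin d) (Fin d) k := fun a i => x (a, i)
  have hxN : x = fun p => N p.1 p.2 := rfl
  rw [hxN, map_mul, map_prod, hD] at hx
  have hx1 : b0.det (vec N) ≠ 0 := left_ne_zero_of_mul hx
  have hx2 := right_ne_zero_of_mul hx
  rw [Finset.prod_ne_zero_iff] at hx2
  obtain ⟨hli, hsp⟩ := (Module.Basis.is_basis_iff_det b0).2 (isUnit_iff_ne_zero.2 hx1)
  let b : Module.Basis (Fin d) k A := Module.Basis.mk hli hsp.ge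
  have hb : (b : Fin d → A) = vec N := Module.Basis.coe_mk _ _
  refine ⟨b, fun i j l h0 => ?_⟩
  have h1 := hx2 (i, j, l) (Finset.mem_univ _)
  rw [hP, ← hb, det_update_eq, h0, zero_mul] at h1
  exact h1 rfl

end Pool.Agent.Y223.AD
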