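import Pool.Agent.Y223.AD.Base

/-!
# Completely split smoothings with a basis with unit structure constants
-/

set_option autoImplicit false

open PowerSeries TensorProduct
open scoped LaurentSeries

namespace Pool.Agent.Y223.AD

universe u

theorem package {k A R S K L F T : Type u} [Field k] [CommRing A] [Algebra k A] [CommRing R]
    [CommRing S] [Field K] [Field L] [Field F] [CommRing T] [Algebra S F] [Algebra R K]
    [Algebra K L] [Algebra R T] [Module.Finite R T] [Module.Flat R T]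
    (φ : R →+* S) (Ψ : L →+* F)
    (hcomm : ∀ r, Ψ (algebraMap K L (algebraMap R K r)) = algebraMap S F (φ r))
    {n : ℕ} (h : Nonempty (L ⊗[K] (K ⊗[R] T) ≃ₐ[L] (Fin n → L)))
    (jR : k →+* R) (jS : k →+* S) (hj : ∀ c, φ (jR c) = jS c)
    (xR : R) (xS : S) (hx : xS ∣ φ xR) (ev : S →+* k) (hev : ∀ c, ev (jS c) = c)
    (hevx : ev xS = 0) (hS : ∀ s : S, ∃ s', s = jS (ev s) + xS * s')
    (q : T →+* A) (hq : Function.Surjective q) (hker : RingHom.ker q = Ideal.span {algebraMap R T xR})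
    (hqR : ∀ r, q (algebraMap R T r) = algebraMap k A (ev (φ r))) :
    ∃ (T' : Type u) (_ : CommRing T') (_ : Algebra S T'), Module.Finite S T' ∧ Module.Flat S T' ∧
      Nonempty (F ⊗[S] T' ≃ₐ[F] (Fin n → F)) ∧
      ∃ q' : T' →+* A, Function.Surjective q' ∧
        RingHom.ker q' = Ideal.span {algebraMap S T' xS} ∧
        ∀ c : k, q' (algebraMap S T' (jS c)) = algebraMap k A c := by
  let _ : Algebra R S := φ.toAlgebra
  let _ : Algebra L F := Ψ.toAlgebra
  let _ : Algebra R F := ((algebraMap S F).comp φ).toAlgebra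
  let _ : Algebra R L := ((algebraMap K L).comp (algebraMap R K)).toAlgebra
  have _ : IsScalarTower R S F := IsScalarTower.of_algebraMap_eq fun _ => rfl
  have _ : IsScalarTower R K L := IsScalarTower.of_algebraMap_eq fun _ => rfl
  have _ : IsScalarTower R L F := IsScalarTower.of_algebraMap_eq fun r => (hcomm r).symm
  exact ⟨S ⊗[R] T, inferInstance, inferInstance, inferInstance, inferInstance,
    generic_split h, special_fibre jR jS hj xR xS hx ev hev hevx hS q hq hker hqR⟩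

theorem main {k A : Type u} [Field k] [IsAlgClosed k] [CommRing A] [Algebra k A]
    [Module.Finite k A] (T : Type u) [CommRing T] [Algebra k⟦X⟧ T] [Module.Finite k⟦X⟧ T]
    [Module.Flat k⟦X⟧ T] (hT : Algebra.IsGeometricallyReduced k⸨X⸩ (k⸨X⸩ ⊗[k⟦X⟧] T))
    (q : T →+* A) (hq : Function.Surjective q)
    (hker : RingHom.ker q = Ideal.span {algebraMap k⟦X⟧ T X})
    (hC : ∀ a : k, q (algebraMap k⟦X⟧ T (C a)) = algebraMap k A a) :
    ∃ (T' : Type u) (_ : CommRing T') (_ : Algebra k⟦X⟧ T'),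
      Module.Finite k⟦X⟧ T' ∧ Module.Flat k⟦X⟧ T' ∧
      Nonempty (k⸨X⸩ ⊗[k⟦X⟧] T' ≃ₐ[k⸨X⸩] (Fin (Module.finrank k A) → k⸨X⸩)) ∧
      (∃ q' : T' →+* A, Function.Surjective q' ∧
        RingHom.ker q' = Ideal.span {algebraMap k⟦X⟧ T' X} ∧
        ∀ c : k, q' (algebraMap k⟦X⟧ T' (C c)) = algebraMap k A c) ∧
      ∃ e : Module.Basis (Fin (Module.finrank k A)) k⟦X⟧ T',
        ∀ i j l, constantCoeff (e.repr (e i * e j) l) ≠ 0 := by
  have hred : IsReduced (AlgebraicClosure k⸨X⸩ ⊗[k⸨X⸩] (k⸨X⸩ ⊗[k⟦X⟧] T)) :=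
    (Algebra.isGeometricallyReduced_field_iff _ _).1 hT
  obtain ⟨L, hLfin, hLsep, hsplit⟩ := exists_split hred
  obtain ⟨φ, Ψ, hφC, hφX, hcomm⟩ := exists_pui (k := k) L
  have hX : q (algebraMap k⟦X⟧ T X) = 0 := by
    rw [← RingHom.mem_ker, hker]; exact Ideal.mem_span_singleton_self _
  have hdecX : ∀ s : k⟦X⟧, ∃ s', s = C (constantCoeff s) + X * s' := by
    intro s
    obtain ⟨g, hg⟩ : X ∣ s - C (constantCoeff s) := by
      rw [X_dvd_iff]; simp
    exact ⟨g, by rw [← hg]; ring⟩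
  have hφev : ∀ r, constantCoeff (φ r) = constantCoeff r := by
    intro r
    obtain ⟨g, hg⟩ := hdecX r
    conv_lhs => rw [hg]
    rw [map_add, map_mul, map_add, map_mul, hφX, zero_mul, add_zero, hφC]
    simp
  obtain ⟨T', iT', iaT', hfin, hflat, hgen, q', hq', hker', hC'⟩ :=
    package (k := k) (A := A) (R := k⟦X⟧) (S := k⟦X⟧) (K := k⸨X⸩) (L := L) (F := k⸨X⸩) (T := T)
      φ Ψ hcomm hsplit C C hφC X X (X_dvd_iff.2 hφX) constantCoeff
      (fun c => by simp) (by simp) hdecX q hq hker (fun r => by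
        rw [q_algebraMap q hX hC, hφev])
  obtain ⟨e, he⟩ := exists_unit_basis q' hq' hker' hC'
  refine ⟨T', iT', iaT', hfin, hflat, ?_, ⟨q', hq', hker', hC'⟩, e, he⟩
  obtain ⟨ε⟩ := hgen
  have h1 : Module.finrank k⸨X⸩ (k⸨X⸩ ⊗[k⟦X⟧] T') = Module.finrank k A := by
    rw [Module.finrank_eq_card_basis (e.baseChange k⸨X⸩)]
    simp
  have h2 := LinearEquiv.finrank_eq ε.toLinearEquiv
  rw [h1, Module.finrank_pi, Fintype.card_fin] at h2
  rw [h2]
  exact ⟨ε⟩

end Pool.Agent.Y223.AD
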