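import Pool.Agent.Y223.AD.Digits

/-!
# Finite separable extensions of `k((X))` embed into `k((X))`
-/

set_option autoImplicit false

open PowerSeries
open scoped LaurentSeries

namespace Pool.Agent.Y223.AD

universe u

theorem dec_of_loc {k B V : Type*} [Field k] [CommRing B] [CommRing V] [Algebra B V]
    (P : Ideal B) [P.IsPrime] [IsLocalization.AtPrime V P] (j : k →+* B) (π : V)
    (hmem : ∀ x ∈ P, π ∣ algebraMap B V x) (hres : ∀ x, ∃ c, x - j c ∈ P) (b : V) :
    ∃ (c : k) (b' : V), b = (algebraMap B V).comp j c + π * b' := by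
  set i : k →+* V := (algebraMap B V).comp j
  obtain ⟨⟨x, s⟩, hxs⟩ := IsLocalization.surj P.primeCompl b
  simp only at hxs
  obtain ⟨c, hc⟩ := hres x
  obtain ⟨e, he⟩ := hres (s : B)
  have he0 : e ≠ 0 := by
    rintro rfl
    rw [map_zero, sub_zero] at he
    exact s.2 he
  obtain ⟨x', hx'⟩ := hmem _ hc
  obtain ⟨s', hs'⟩ := hmem _ he
  have hsu : IsUnit (algebraMap B V s) := IsLocalization.map_units V s
  obtain ⟨u, hu⟩ := hsu
  have hx2 : algebraMap B V x = i c + π * x' := by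
    rw [← hx', map_sub]; simp [i]
  have hs2 : algebraMap B V s = i e + π * s' := by
    rw [← hs', map_sub]; simp [i]
  refine ⟨c / e, (x' - i (c / e) * s') * ((u⁻¹ : Vˣ) : V), ?_⟩
  have h1 : b = (i c + π * x') * ((u⁻¹ : Vˣ) : V) := by
    rw [← hx2, ← hxs, ← hu, mul_assoc, Units.mul_inv, mul_one]
  have h2 : i (c / e) = (i (c / e) * (i e + π * s')) * ((u⁻¹ : Vˣ) : V) := by
    rw [← hs2, ← hu, mul_assoc, Units.mul_inv, mul_one]
  have h3 : i c = i (c / e) * i e := by
    rw [← map_mul, div_mul_cancel₀ _ he0]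
  rw [h1, h3]
  linear_combination (-1) * h2

theorem exists_pui {k : Type u} [Field k] [IsAlgClosed k] (L : Type u) [Field L]
    [Algebra k⸨X⸩ L] [FiniteDimensional k⸨X⸩ L] [Algebra.IsSeparable k⸨X⸩ L] :
    ∃ (φ : k⟦X⟧ →+* k⟦X⟧) (Ψ : L →+* k⸨X⸩), (∀ a, φ (C a) = C a) ∧ constantCoeff (φ X) = 0 ∧
      ∀ f, Ψ (algebraMap k⸨X⸩ L (algebraMap k⟦X⟧ k⸨X⸩ f)) = algebraMap k⟦X⟧ k⸨X⸩ (φ f) := by
  let algL : Algebra k⟦X⟧ L := ((algebraMap k⸨X⸩ L).comp (algebraMap k⟦X⟧ k⸨X⸩)).toAlgebra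
  have tow : IsScalarTower k⟦X⟧ k⸨X⸩ L := IsScalarTower.of_algebraMap_eq fun _ => rfl
  let B := integralClosure k⟦X⟧ L
  have hded : IsDedekindDomain B := integralClosure.isDedekindDomain k⟦X⟧ k⸨X⸩ L
  have hfrac : IsFractionRing B L := integralClosure.isFractionRing_of_finite_extension k⸨X⸩ L
  have hinj : Function.Injective (algebraMap k⟦X⟧ B) := by
    intro x y hxy
    have h1 : algebraMap k⟦X⟧ L x = algebraMap k⟦X⟧ L y := congrArg (fun z : B => (z : L)) hxy
    have h2 : algebraMap k⟦X⟧ k⸨X⸩ x = algebraMap k⟦X⟧ k⸨X⸩ y := (algebraMap k⸨X⸩ L).injective h1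
    exact IsFractionRing.injective k⟦X⟧ k⸨X⸩ h2
  -- a maximal ideal above `X`
  obtain ⟨P, hPmax, hPcomap⟩ := Ideal.exists_ideal_over_maximal_of_isIntegral (S := B)
    (IsLocalRing.maximalIdeal k⟦X⟧) (by
      rw [(RingHom.injective_iff_ker_eq_bot _).1 hinj]; exact bot_le)
  have hXP : algebraMap k⟦X⟧ B X ∈ P := by
    rw [← Ideal.mem_comap, hPcomap, IsLocalRing.mem_maximalIdeal, mem_nonunits_iff,
      PowerSeries.isUnit_iff_constantCoeff]
    simp
  have hP0 : P ≠ ⊥ := by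
    rintro rfl
    rw [Ideal.mem_bot] at hXP
    exact X_ne_zero (hinj (hXP.trans (map_zero _).symm))
  have hPp : P.IsPrime := hPmax.isPrime
  -- residues
  have hres : ∀ x : B, ∃ c : k, x - algebraMap k⟦X⟧ B (C c) ∈ P := by
    intro x
    let _ : Field (B ⧸ P) := Ideal.Quotient.field P
    let i : k →+* B ⧸ P := (Ideal.Quotient.mk P).comp ((algebraMap k⟦X⟧ B).comp C)
    let _ : Algebra k (B ⧸ P) := i.toAlgebra
    have hint : ∀ y : B ⧸ P, IsIntegral k y := by
      intro y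
      obtain ⟨y, rfl⟩ := Ideal.Quotient.mk_surjective y
      obtain ⟨f, hf, hf0⟩ := Algebra.IsIntegral.isIntegral (R := k⟦X⟧) y
      refine ⟨f.map constantCoeff, hf.map _, ?_⟩
      rw [Polynomial.eval₂_map]
      have h1 : (algebraMap k (B ⧸ P)).comp (constantCoeff (R := k)) =
          (Ideal.Quotient.mk P).comp (algebraMap k⟦X⟧ B) := by
        ext g
        obtain ⟨g', hg'⟩ : X ∣ g - C (constantCoeff g) := by
          rw [X_dvd_iff]; simp
        have h2 : g = X * g' + C (constantCoeff g) := by rw [← hg']; ring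
        have h3 : Ideal.Quotient.mk P (algebraMap k⟦X⟧ B X) = 0 := Ideal.Quotient.eq_zero_iff_mem.2 hXP
        change i (constantCoeff g) = Ideal.Quotient.mk P (algebraMap k⟦X⟧ B g)
        conv_rhs => rw [h2]
        rw [map_add, map_mul, map_add, map_mul, h3, zero_mul, zero_add]
        rfl
      rw [h1, ← Polynomial.hom_eval₂, hf0, map_zero]
    have hint' : Algebra.IsIntegral k (B ⧸ P) := ⟨hint⟩
    obtain ⟨c, hc⟩ := (IsAlgClosed.algebraMap_bijective_of_isIntegral (k := k) (K := B ⧸ P)).2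
      (Ideal.Quotient.mk P x)
    refine ⟨c, ?_⟩
    rw [← Ideal.Quotient.eq_zero_iff_mem, map_sub, ← hc]
    exact sub_self _
  let V := Localization.AtPrime P
  have hV : IsDiscreteValuationRing V :=
    IsLocalization.AtPrime.isDiscreteValuationRing_of_dedekind_domain B hP0 V
  obtain ⟨π, hπ⟩ := IsDiscreteValuationRing.exists_irreducible V
  have hmax : IsLocalRing.maximalIdeal V = Ideal.span {π} := hπ.maximalIdeal_eq
  have hmem : ∀ x : B, x ∈ P → π ∣ algebraMap B V x := by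
    intro x hx
    have : algebraMap B V x ∈ IsLocalRing.maximalIdeal V :=
      (IsLocalization.AtPrime.to_map_mem_maximal_iff V P x).2 hx
    rwa [hmax, Ideal.mem_span_singleton] at this
  let i : k →+* V := (algebraMap B V).comp ((algebraMap k⟦X⟧ B).comp C)
  have hdec : ∀ b : V, ∃ (c : k) (b' : V), b = i c + π * b' :=
    dec_of_loc P ((algebraMap k⟦X⟧ B).comp C) π hmem hres
  obtain ⟨Φ, hΦinj, hΦC, hΦp⟩ := exists_expansion i π hπ.ne_zero hπ.not_isUnit hdec
  have hBV : Function.Injective (algebraMap B V) :=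
    IsLocalization.injective V P.primeCompl_le_nonZeroDivisors
  let g : B →+* k⸨X⸩ := (algebraMap k⟦X⟧ k⸨X⸩).comp (Φ.comp (algebraMap B V))
  have hg : Function.Injective g :=
    (IsFractionRing.injective k⟦X⟧ k⸨X⸩).comp (hΦinj.comp hBV)
  refine ⟨Φ.comp ((algebraMap B V).comp (algebraMap k⟦X⟧ B)), IsFractionRing.lift hg,
    fun a => hΦC a, ?_, ?_⟩
  · obtain ⟨v, hv⟩ := hmem _ hXP
    change constantCoeff (Φ (algebraMap B V (algebraMap k⟦X⟧ B X))) = 0
    rw [hv, map_mul, hΦp]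
    simp
  · intro f
    have h1 : algebraMap k⸨X⸩ L (algebraMap k⟦X⟧ k⸨X⸩ f) = algebraMap B L (algebraMap k⟦X⟧ B f) := rfl
    rw [h1, IsFractionRing.lift_algebraMap]
    rfl

end Pool.Agent.Y223.AD
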